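import Pool.Agent.Run7.h520.FO.Fin

/-!
# Free Burnside groups and relators of full order

`F = FreeGroup X`, `powSub X n = F^n`, `B(m,n) = F / F^n`; `Full X n v`: the image of `v` in `B(m,n)`
has order exactly `n`.  Let `V` be the set of ALL words of full order.

* for EVERY number of generators and EVERY `n ≥ 1`: in every nilpotent group (of any class, finite or
  infinite) the relations `v^n = 1` (`v ∈ V`) imply `w^n = 1` for all words `w`, i.e. `B(m,n)` and the
  group `⟨X | v^n = 1 (v ∈ V)⟩` have the same nilpotent quotients;
* for EVERY number of generators and EVERY prime `n`: the same in every finite group, i.e. `B(m,n)`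
  and the group `⟨X | v^n = 1 (v ∈ V)⟩` have the same finite quotients;
* for `n ≤ 3` and every number of generators, and for one generator and every `n`, the relations
  `v^n = 1` (`v ∈ V`) define `B(m,n)` (a positive answer to Q1 in these cases).
-/

set_option autoImplicit false

open Pool.Agent.Run7.h520.FO

namespace Pool.Agent.Results.MP_3a4fb1_al.FullOrderRelators

universe u v

theorem result (X : Type u) [Nonempty X] (n : ℕ) (hn : 1 ≤ n) :
    (∀ (G : Type v) [Group G] (f : FreeGroup X →* G), (Group.IsNilpotent G ∨ (n.Prime ∧ Finite G)) →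
      (∀ v : FreeGroup X, Full X n v → f v ^ n = 1) → ∀ w : FreeGroup X, f w ^ n = 1) ∧
    ((n ≤ 3 ∨ Subsingleton X) →
      Subgroup.normalClosure ((fun v : FreeGroup X => v ^ n) '' {v | Full X n v}) = powSub X n) := by
  refine ⟨fun G _ f hG hf w => ?_, fun h => rel_small X n hn h⟩
  rcases hG with hG | ⟨hp, hG⟩
  · exact nilp X n hn G f hf w
  · exact fin_prime X n hp G f hf w

end Pool.Agent.Results.MP_3a4fb1_al.FullOrderRelators
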